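import Mathlib
import Pool.Agent.U237.LI.Stm

/-! Project LI, package TK. -/

set_option autoImplicit false

namespace Pool.Agent.U427.LI

open Finset

/-- counting multiples of `d` in a window -/
lemma cnt (d : ℕ) (hd : 0 < d) (n L : ℕ) :
    |(((range L).filter (fun i => d ∣ n + i)).card : ℝ) - (L : ℝ) / d| ≤ 1 := by
  set v : ℕ := d - n % d with hv
  have h0 : n % d < d := Nat.mod_lt _ hd
  have hnv : n + v ≡ 0 [MOD d] := by
    have h1 : n + v = d * (n / d) + (n % d + v) := by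
      rw [← add_assoc, Nat.div_add_mod]
    have h2 : n % d + v = d := by omega
    rw [h1, h2]
    exact (Nat.modEq_zero_iff_dvd).2 (Dvd.dvd.add (dvd_mul_right _ _) dvd_rfl)
  have h1 : (range L).filter (fun i => d ∣ n + i) = (range L).filter (fun i => i ≡ v [MOD d]) := by
    refine filter_congr fun i _ => ?_
    constructor
    · intro h
      have h3 : n + i ≡ n + v [MOD d] := ((Nat.modEq_zero_iff_dvd).2 h).trans hnv.symm
      exact Nat.ModEq.add_left_cancel' n h3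
    · intro h
      have h3 : n + i ≡ n + v [MOD d] := Nat.ModEq.add_left n h
      exact (Nat.modEq_zero_iff_dvd).1 (h3.trans hnv)
  rw [h1, ← Nat.count_eq_card_filter_range, Nat.count_modEq_card L hd v]
  have hdr : (0 : ℝ) < d := by exact_mod_cast hd
  have h4 : ((L / d : ℕ) : ℝ) ≤ (L : ℝ) / d := Nat.cast_div_le
  have h5 : (L : ℝ) / d < ((L / d : ℕ) : ℝ) + 1 := by
    rw [div_lt_iff₀ hdr]
    have h6 : L < d * (L / d) + d := by
      have := Nat.div_add_mod L d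
      have := Nat.mod_lt L hd
      omega
    have h7 : (L : ℝ) < (d : ℝ) * ((L / d : ℕ) : ℝ) + d := by exact_mod_cast h6
    nlinarith
  rw [abs_le]
  split_ifs
  · push_cast
    constructor <;> linarith
  · push_cast
    constructor <;> linarith

/-- the weight -/
noncomputable def v (n p i : ℕ) : ℝ := (if p ∣ n + i then (p : ℝ) else 0) - 1

lemma sum_ind (n L d : ℕ) (c : ℝ) : ∑ i ∈ range L, (if d ∣ n + i then c else 0) =
    c * (((range L).filter (fun i => d ∣ n + i)).card : ℝ) := by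
  rw [← sum_filter, sum_const, nsmul_eq_mul]
  ring

lemma gram_self (n L p : ℕ) (hp : p.Prime) :
    |∑ i ∈ range L, v n p i * v n p i| ≤ p * L + p ^ 2 := by
  have hp2 : (2 : ℝ) ≤ p := by exact_mod_cast hp.two_le
  have h1 : ∑ i ∈ range L, v n p i * v n p i =
      ((p : ℝ) ^ 2 - 2 * p) * (((range L).filter (fun i => p ∣ n + i)).card : ℝ) + L := by
    rw [← sum_ind]
    have : (L : ℝ) = ∑ _i ∈ range L, (1 : ℝ) := by simp
    rw [this, ← sum_add_distrib]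
    refine sum_congr rfl fun i _ => ?_
    unfold v
    split_ifs <;> ring
  have h2 := cnt p hp.pos n L
  rw [abs_le] at h2
  have h3 : (0 : ℝ) ≤ (((range L).filter (fun i => p ∣ n + i)).card : ℝ) := Nat.cast_nonneg _
  have h0 : 0 ≤ (p : ℝ) ^ 2 - 2 * p := by nlinarith
  have hL : (0 : ℝ) ≤ L := Nat.cast_nonneg _
  rw [h1, abs_of_nonneg (by positivity)]
  have h4 : ((p : ℝ) ^ 2 - 2 * p) * (((range L).filter (fun i => p ∣ n + i)).card : ℝ) ≤
      ((p : ℝ) ^ 2 - 2 * p) * ((L : ℝ) / p + 1) := mul_le_mul_of_nonneg_left (by linarith [h2.2]) h0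
  have h5 : ((p : ℝ) ^ 2 - 2 * p) * ((L : ℝ) / p + 1) = (p - 2) * L + (p ^ 2 - 2 * p) := by
    have : (p : ℝ) ≠ 0 := by linarith
    field_simp
  nlinarith

lemma gram_ne (n L p q : ℕ) (hp : p.Prime) (hq : q.Prime) (hpq : p ≠ q) :
    |∑ i ∈ range L, v n p i * v n q i| ≤ 3 * (p * q) := by
  have hp1 : (1 : ℝ) ≤ p := by exact_mod_cast hp.one_le
  have hq1 : (1 : ℝ) ≤ q := by exact_mod_cast hq.one_le
  have hc : Nat.Coprime p q := (Nat.coprime_primes hp hq).2 hpq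
  set Np : ℝ := (((range L).filter (fun i => p ∣ n + i)).card : ℝ) with hNp
  set Nq : ℝ := (((range L).filter (fun i => q ∣ n + i)).card : ℝ) with hNq
  set N : ℝ := (((range L).filter (fun i => p * q ∣ n + i)).card : ℝ) with hN
  have h1 : ∑ i ∈ range L, v n p i * v n q i = (p * q : ℝ) * N - p * Np - q * Nq + L := by
    rw [hN, hNp, hNq, ← sum_ind, ← sum_ind, ← sum_ind]
    have : (L : ℝ) = ∑ _i ∈ range L, (1 : ℝ) := by simp
    rw [this, ← sum_sub_distrib, ← sum_sub_distrib, ← sum_add_distrib]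
    refine sum_congr rfl fun i _ => ?_
    unfold v
    by_cases a : p ∣ n + i
    · by_cases b : q ∣ n + i
      · rw [if_pos a, if_pos b, if_pos (hc.mul_dvd_of_dvd_of_dvd a b)]
        ring
      · rw [if_pos a, if_neg b, if_neg (fun h => b ((dvd_mul_left q p).trans h))]
        ring
    · by_cases b : q ∣ n + i
      · rw [if_neg a, if_pos b, if_neg (fun h => a ((dvd_mul_right p q).trans h))]
        ring
      · rw [if_neg a, if_neg b, if_neg (fun h => a ((dvd_mul_right p q).trans h))]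
        ring
  have c1 := cnt p hp.pos n L
  have c2 := cnt q hq.pos n L
  have c3 := cnt (p * q) (Nat.mul_pos hp.pos hq.pos) n L
  rw [← hNp] at c1
  rw [← hNq] at c2
  rw [← hN] at c3
  have hp0 : (p : ℝ) ≠ 0 := by positivity
  have hq0 : (q : ℝ) ≠ 0 := by positivity
  have e : (p * q : ℝ) * N - p * Np - q * Nq + L =
      (p * q : ℝ) * (N - (L : ℝ) / ((p * q : ℕ) : ℝ)) - p * (Np - (L : ℝ) / p) - q * (Nq - (L : ℝ) / q) := by
    push_cast
    field_simp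
    ring
  rw [h1, e]
  have a1 : |(p * q : ℝ) * (N - (L : ℝ) / ((p * q : ℕ) : ℝ))| ≤ p * q := by
    rw [abs_mul, abs_of_nonneg (by positivity : (0 : ℝ) ≤ p * q)]
    calc (p * q : ℝ) * |N - (L : ℝ) / ((p * q : ℕ) : ℝ)| ≤ (p * q : ℝ) * 1 := by gcongr
      _ = _ := by ring
  have a2 : |(p : ℝ) * (Np - (L : ℝ) / p)| ≤ p := by
    rw [abs_mul, abs_of_nonneg (by positivity : (0 : ℝ) ≤ p)]
    calc (p : ℝ) * |Np - (L : ℝ) / p| ≤ (p : ℝ) * 1 := by gcongr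
      _ = _ := by ring
  have a3 : |(q : ℝ) * (Nq - (L : ℝ) / q)| ≤ q := by
    rw [abs_mul, abs_of_nonneg (by positivity : (0 : ℝ) ≤ q)]
    calc (q : ℝ) * |Nq - (L : ℝ) / q| ≤ (q : ℝ) * 1 := by gcongr
      _ = _ := by ring
  have t := abs_sub (((p * q : ℝ) * (N - (L : ℝ) / ((p * q : ℕ) : ℝ))) - p * (Np - (L : ℝ) / p)) (q * (Nq - (L : ℝ) / q))
  have t2 := abs_sub ((p * q : ℝ) * (N - (L : ℝ) / ((p * q : ℕ) : ℝ))) (p * (Np - (L : ℝ) / p))
  have s1 : (p : ℝ) ≤ p * q := by nlinarith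
  have s2 : (q : ℝ) ≤ p * q := by nlinarith
  linarith

theorem t_TK : Pool.Agent.U237.LI.S_TK := by
  intro Y
  refine ⟨Y + 3 * Y * (Y + 1), fun L hL n g hg => ?_⟩
  set P : Finset ℕ := (range (Y + 1)).filter Nat.Prime with hP
  have hPp : ∀ p ∈ P, p.Prime := fun p hp => (mem_filter.1 hp).2
  have hPY : ∀ p ∈ P, p ≤ Y := fun p hp => by
    have := (mem_filter.1 hp).1
    rw [mem_range] at this
    omega
  have hPc : (P.card : ℝ) ≤ Y + 1 := by
    have := (card_filter_le (range (Y + 1)) Nat.Prime)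
    rw [card_range] at this
    exact_mod_cast this
  set T : ℕ → ℂ := fun p => ∑ i ∈ range L, g i * (v n p i : ℂ) with hT
  have hTe : ∀ p : ℕ, (p : ℂ) * ∑ i ∈ (range L).filter (fun i => p ∣ n + i), g i - ∑ i ∈ range L, g i = T p := by
    intro p
    rw [hT, sum_filter, mul_sum, ← sum_sub_distrib]
    refine sum_congr rfl fun i _ => ?_
    unfold v
    split_ifs <;> push_cast <;> ring
  set X : ℝ := ∑ p ∈ P, (1 / (p : ℝ)) * ‖T p‖ ^ 2 with hX
  have hgoal : ∑ p ∈ P, (1 / (p : ℝ)) *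
      ‖(p : ℂ) * ∑ i ∈ (range L).filter (fun i => p ∣ n + i), g i - ∑ i ∈ range L, g i‖ ^ 2 = X := by
    rw [hX]
    exact sum_congr rfl fun p _ => by rw [hTe]
  rw [hgoal]
  have hX0 : 0 ≤ X := sum_nonneg fun p _ => by positivity
  -- duality
  set W : ℕ → ℂ := fun i => ∑ p ∈ P, ((1 / (p : ℝ) : ℝ) : ℂ) * (starRingEnd ℂ) (T p) * (v n p i : ℂ) with hW
  have d1 : (X : ℂ) = ∑ i ∈ range L, g i * W i := by
    have : (X : ℂ) = ∑ p ∈ P, ((1 / (p : ℝ) : ℝ) : ℂ) * (starRingEnd ℂ) (T p) * T p := by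
      rw [hX]
      push_cast
      refine sum_congr rfl fun p _ => ?_
      rw [mul_assoc, mul_comm ((starRingEnd ℂ) (T p)) (T p), Complex.mul_conj, Complex.normSq_eq_norm_sq]
      push_cast
      ring
    rw [this]
    simp only [hW, hT, mul_sum]
    rw [sum_comm]
    refine sum_congr rfl fun i _ => sum_congr rfl fun p _ => ?_
    ring
  have d2 : X ≤ ∑ i ∈ range L, ‖W i‖ := by
    have h1 : X = ‖(X : ℂ)‖ := by rw [Complex.norm_real, Real.norm_eq_abs, abs_of_nonneg hX0]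
    rw [h1, d1]
    refine (norm_sum_le _ _).trans (sum_le_sum fun i _ => ?_)
    rw [norm_mul]
    calc ‖g i‖ * ‖W i‖ ≤ 1 * ‖W i‖ := by gcongr; exact hg i
      _ = _ := one_mul _
  have d3 : X ^ 2 ≤ L * ∑ i ∈ range L, ‖W i‖ ^ 2 := by
    have h1 : X ^ 2 ≤ (∑ i ∈ range L, ‖W i‖) ^ 2 := by gcongr
    have h2 := sq_sum_le_card_mul_sum_sq (s := range L) (f := fun i => ‖W i‖)
    rw [card_range] at h2
    exact h1.trans h2
  -- the sum of squares
  set G : ℕ → ℕ → ℝ := fun p q => ∑ i ∈ range L, v n p i * v n q i with hG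
  have d4 : ((∑ i ∈ range L, ‖W i‖ ^ 2 : ℝ) : ℂ) =
      ∑ p ∈ P, ∑ q ∈ P, ((1 / (p : ℝ) : ℝ) : ℂ) * ((1 / (q : ℝ) : ℝ) : ℂ) * (starRingEnd ℂ) (T p) * T q * (G p q : ℂ) := by
    have h1 : ∀ i, ((‖W i‖ ^ 2 : ℝ) : ℂ) = ∑ p ∈ P, ∑ q ∈ P,
        ((1 / (p : ℝ) : ℝ) : ℂ) * ((1 / (q : ℝ) : ℝ) : ℂ) * (starRingEnd ℂ) (T p) * T q *
          ((v n p i : ℂ) * (v n q i : ℂ)) := by
      intro i
      rw [← Complex.normSq_eq_norm_sq, ← Complex.mul_conj]
      have h2 : (starRingEnd ℂ) (W i) = ∑ q ∈ P, ((1 / (q : ℝ) : ℝ) : ℂ) * T q * (v n q i : ℂ) := by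
        simp only [hW, map_sum, map_mul, Complex.conj_ofReal, Complex.conj_conj]
      rw [h2]
      simp only [hW]
      rw [sum_mul_sum]
      refine sum_congr rfl fun p _ => sum_congr rfl fun q _ => ?_
      ring
    rw [Complex.ofReal_sum]
    rw [sum_congr rfl fun i _ => h1 i, sum_comm]
    refine sum_congr rfl fun p _ => ?_
    rw [sum_comm]
    refine sum_congr rfl fun q _ => ?_
    rw [← mul_sum]
    congr 1
    simp only [hG]
    push_cast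
    rfl
  have d5 : ∑ i ∈ range L, ‖W i‖ ^ 2 ≤
      ∑ p ∈ P, ∑ q ∈ P, (1 / (p : ℝ)) * (1 / (q : ℝ)) * ‖T p‖ * ‖T q‖ * |G p q| := by
    have h0 : 0 ≤ ∑ i ∈ range L, ‖W i‖ ^ 2 := sum_nonneg fun i _ => by positivity
    have h1 : ∑ i ∈ range L, ‖W i‖ ^ 2 = ‖((∑ i ∈ range L, ‖W i‖ ^ 2 : ℝ) : ℂ)‖ := by
      rw [Complex.norm_real, Real.norm_eq_abs, abs_of_nonneg h0]
    rw [h1, d4]
    refine (norm_sum_le _ _).trans (sum_le_sum fun p _ => (norm_sum_le _ _).trans (sum_le_sum fun q _ => ?_))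
    rw [norm_mul, norm_mul, norm_mul, norm_mul, RCLike.norm_conj, Complex.norm_real, Complex.norm_real,
      Complex.norm_real, Real.norm_eq_abs, Real.norm_eq_abs, Real.norm_eq_abs,
      abs_of_nonneg (by positivity : (0 : ℝ) ≤ 1 / (p : ℝ)), abs_of_nonneg (by positivity : (0 : ℝ) ≤ 1 / (q : ℝ))]
  have key : ∀ p ∈ P, ∀ q ∈ P, (1 / (p : ℝ)) * (1 / (q : ℝ)) * ‖T p‖ * ‖T q‖ * |G p q| ≤
      (if p = q then ((L : ℝ) + Y) * ((1 / (p : ℝ)) * ‖T p‖ ^ 2) else 0) +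
        3 / 2 * Y * ((1 / (p : ℝ)) * ‖T p‖ ^ 2 + (1 / (q : ℝ)) * ‖T q‖ ^ 2) := by
    intro p hp q hq
    have hp0 : (0 : ℝ) < p := by exact_mod_cast (hPp p hp).pos
    have hq0 : (0 : ℝ) < q := by exact_mod_cast (hPp q hq).pos
    have hY : (0 : ℝ) ≤ Y := Nat.cast_nonneg _
    by_cases hpq : p = q
    · subst hpq
      rw [if_pos rfl]
      have h1 := gram_self n L p (hPp p hp)
      have h2 : (1 / (p : ℝ)) * (1 / (p : ℝ)) * ‖T p‖ * ‖T p‖ * |G p p| ≤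
          (1 / (p : ℝ)) * (1 / (p : ℝ)) * ‖T p‖ * ‖T p‖ * (p * L + p ^ 2) := by
        gcongr
      have h3 : (1 / (p : ℝ)) * (1 / (p : ℝ)) * ‖T p‖ * ‖T p‖ * (p * L + p ^ 2) =
          ((L : ℝ) + p) * ((1 / (p : ℝ)) * ‖T p‖ ^ 2) := by
        field_simp
      have h4 : ((L : ℝ) + p) * ((1 / (p : ℝ)) * ‖T p‖ ^ 2) ≤ ((L : ℝ) + Y) * ((1 / (p : ℝ)) * ‖T p‖ ^ 2) := by
        gcongr
        exact hPY p hp
      have h5 : 0 ≤ 3 / 2 * (Y : ℝ) * ((1 / (p : ℝ)) * ‖T p‖ ^ 2 + (1 / (p : ℝ)) * ‖T p‖ ^ 2) := by positivity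
      linarith
    · rw [if_neg hpq, zero_add]
      have h1 := gram_ne n L p q (hPp p hp) (hPp q hq) hpq
      have h2 : (1 / (p : ℝ)) * (1 / (q : ℝ)) * ‖T p‖ * ‖T q‖ * |G p q| ≤
          (1 / (p : ℝ)) * (1 / (q : ℝ)) * ‖T p‖ * ‖T q‖ * (3 * (p * q)) := by
        gcongr
      have h3 : (1 / (p : ℝ)) * (1 / (q : ℝ)) * ‖T p‖ * ‖T q‖ * (3 * (p * q)) = 3 * (‖T p‖ * ‖T q‖) := by
        field_simp
      have h4 : ‖T p‖ * ‖T q‖ ≤ (‖T p‖ ^ 2 + ‖T q‖ ^ 2) / 2 := by nlinarith [sq_nonneg (‖T p‖ - ‖T q‖)]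
      have h5 : ∀ r ∈ P, ‖T r‖ ^ 2 ≤ Y * ((1 / (r : ℝ)) * ‖T r‖ ^ 2) := by
        intro r hr
        have hr0 : (0 : ℝ) < r := by exact_mod_cast (hPp r hr).pos
        calc ‖T r‖ ^ 2 = (r : ℝ) * ((1 / (r : ℝ)) * ‖T r‖ ^ 2) := by field_simp
          _ ≤ _ := by gcongr; exact hPY r hr
      have h6 := h5 p hp
      have h7 := h5 q hq
      linarith
  have d6 : ∑ p ∈ P, ∑ q ∈ P, (1 / (p : ℝ)) * (1 / (q : ℝ)) * ‖T p‖ * ‖T q‖ * |G p q| ≤
      ((L : ℝ) + Y) * X + 3 * Y * (Y + 1) * X := by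
    have hY : (0 : ℝ) ≤ Y := Nat.cast_nonneg _
    refine (sum_le_sum fun p hp => sum_le_sum fun q hq => key p hp q hq).trans ?_
    have e1 : ∑ p ∈ P, ∑ q ∈ P, ((if p = q then ((L : ℝ) + Y) * ((1 / (p : ℝ)) * ‖T p‖ ^ 2) else 0) +
        3 / 2 * Y * ((1 / (p : ℝ)) * ‖T p‖ ^ 2 + (1 / (q : ℝ)) * ‖T q‖ ^ 2)) =
        ((L : ℝ) + Y) * X + 3 * Y * P.card * X := by
      have e2 : ∀ p ∈ P, ∑ q ∈ P, ((if p = q then ((L : ℝ) + Y) * ((1 / (p : ℝ)) * ‖T p‖ ^ 2) else 0) +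
          3 / 2 * Y * ((1 / (p : ℝ)) * ‖T p‖ ^ 2 + (1 / (q : ℝ)) * ‖T q‖ ^ 2)) =
          ((L : ℝ) + Y) * ((1 / (p : ℝ)) * ‖T p‖ ^ 2) +
            (3 / 2 * Y * P.card * ((1 / (p : ℝ)) * ‖T p‖ ^ 2) + 3 / 2 * Y * X) := by
        intro p hp
        rw [sum_add_distrib, sum_ite_eq, if_pos hp, ← mul_sum, sum_add_distrib, sum_const, nsmul_eq_mul, ← hX]
        ring
      rw [sum_congr rfl e2, sum_add_distrib, sum_add_distrib, sum_const, nsmul_eq_mul, ← mul_sum, ← mul_sum, ← hX]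
      ring
    rw [e1]
    have : 3 * Y * (P.card : ℝ) * X ≤ 3 * Y * (Y + 1) * X := by gcongr
    linarith
  have hLr : (Y : ℝ) + 3 * Y * (Y + 1) ≤ L := by exact_mod_cast hL
  have hL0 : (0 : ℝ) ≤ L := Nat.cast_nonneg _
  have d7 : X ^ 2 ≤ 2 * (L : ℝ) ^ 2 * X := by
    calc X ^ 2 ≤ L * (((L : ℝ) + Y) * X + 3 * Y * (Y + 1) * X) := d3.trans (by gcongr; exact d5.trans d6)
      _ = L * ((L + (Y + 3 * Y * (Y + 1))) * X) := by ring
      _ ≤ L * ((L + L) * X) := by gcongr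
      _ = _ := by ring
  rcases hX0.eq_or_lt with h | h
  · rw [← h]; positivity
  · have : X ≤ 2 * (L : ℝ) ^ 2 := by
      rw [pow_two] at d7
      exact le_of_mul_le_mul_right d7 h
    nlinarith [sq_nonneg (L : ℝ)]

end Pool.Agent.U427.LI
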